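import Mathlib
import Pool.Agent.R463.EX12

set_option autoImplicit false

/-!
# The exact local structure in the Ankeny-Chowla-Hasse and Lang families
-/

namespace Pool.Agent.Results.MP_4b1228_nt.ExactBlocks

open Finset Filter

/-- the functions `(2 m x) ^ 2 + 1` and `((2 m + 1) x) ^ 2 + 4` of the two families, `1 ≤ m ≤ N ^ A` -/
def Family (A N : ℕ) (f : ℕ → ℤ) : Prop :=
  ∃ m : ℕ, 1 ≤ m ∧ m ≤ N ^ A ∧
    (f = (fun x : ℕ => (2 * m * x : ℤ) ^ 2 + 1) ∨ f = (fun x : ℕ => ((2 * m + 1) * x : ℤ) ^ 2 + 4))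

/-- neither `n` nor `f n` has a prime factor `p ≤ X ^ (1 / r)` -/
def Good (f : ℕ → ℤ) (X r n : ℕ) : Prop :=
  ∀ p : ℕ, p.Prime → (p : ℝ) ≤ (X : ℝ) ^ (1 / (r : ℝ)) → ¬ p ∣ n ∧ ¬ (p : ℤ) ∣ f n

/-- the number of the residues `n` modulo `p` for which `p` divides `n` or `f n` -/
def nu (f : ℕ → ℤ) (p : ℕ) : ℕ := ((range p).filter (fun n : ℕ => p ∣ n ∨ (p : ℤ) ∣ f n)).card

/-- the product of `1 - nu(p) / p` over the primes `p ≤ X ^ (1 / r)` -/
noncomputable def V (f : ℕ → ℤ) (X r : ℕ) : ℝ :=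
  ∏ p ∈ (Icc 1 ⌊(X : ℝ) ^ (1 / (r : ℝ))⌋₊).filter Nat.Prime, (1 - (nu f p : ℝ) / p)

open Classical in
/-- the number of the residues `n` modulo `p` for which `p` divides `m` or `f m` for an `m = n + h`,
`h ∈ H` -/
noncomputable def nuH (f : ℕ → ℤ) (H : Finset ℕ) (p : ℕ) : ℕ :=
  ((range p).filter (fun n : ℕ => ∃ h ∈ H, p ∣ n + h ∨ (p : ℤ) ∣ f (n + h))).card

/-- the density of the pattern: the product of `1 - nuH(p) / p` over the primes `p ≤ X ^ (1 / r)` -/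
noncomputable def VH (f : ℕ → ℤ) (H : Finset ℕ) (X r : ℕ) : ℝ :=
  ∏ p ∈ (Icc 1 ⌊(X : ℝ) ^ (1 / (r : ℝ))⌋₊).filter Nat.Prime, (1 - (nuH f H p : ℝ) / p)

open Classical in
/-- the number of the `n` in `(Z, Z + Y]` for which the good integers in `[n, n + L]` are exactly the
integers `n + h` with `h ∈ H` -/
noncomputable def Blocks (f : ℕ → ℤ) (H : Finset ℕ) (L X r Z Y : ℕ) : ℕ :=
  ((Ioc Z (Z + Y)).filter (fun n => ∀ h ≤ L, Good f X r (n + h) ↔ h ∈ H)).card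

lemma good_iff (f : ℕ → ℤ) (g : ℤ → ℤ) (hg : ∀ n : ℕ, g n = f n) (X r n : ℕ) :
    Good f X r n ↔ Pool.Agent.R463.TP.GoodT g X r n := by
  unfold Good Pool.Agent.R463.TP.GoodT
  simp only [hg]

lemma nu_eq (f : ℕ → ℤ) (g : ℤ → ℤ) (hg : ∀ n : ℕ, g n = f n) (p : ℕ) :
    nu f p = Pool.Agent.R463.TP.nuT g p := by
  classical
  unfold nu Pool.Agent.R463.TP.nuT
  congr 1
  ext n
  simp only [mem_filter, hg]

lemma V_eq (f : ℕ → ℤ) (g : ℤ → ℤ) (hg : ∀ n : ℕ, g n = f n) (X r : ℕ) :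
    V f X r = Pool.Agent.R463.TP.VT g X r := by
  unfold V Pool.Agent.R463.TP.VT
  simp only [nu_eq f g hg]

lemma nuH_eq (f : ℕ → ℤ) (g : ℤ → ℤ) (hg : ∀ n : ℕ, g n = f n) (H : Finset ℕ) (p : ℕ) :
    nuH f H p = Pool.Agent.R463.TP.nuTH g H p := by
  classical
  unfold nuH Pool.Agent.R463.TP.nuTH
  congr 1
  ext n
  simp only [mem_filter, hg]

lemma VH_eq (f : ℕ → ℤ) (g : ℤ → ℤ) (hg : ∀ n : ℕ, g n = f n) (H : Finset ℕ) (X r : ℕ) :
    VH f H X r = Pool.Agent.R463.TP.VTH g H X r := by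
  unfold VH Pool.Agent.R463.TP.VTH
  simp only [nuH_eq f g hg]

lemma Blocks_eq (f : ℕ → ℤ) (g : ℤ → ℤ) (hg : ∀ n : ℕ, g n = f n) (H : Finset ℕ) (L X r Z Y : ℕ) :
    Blocks f H L X r Z Y = Pool.Agent.R463.TP.BT g H L X r Z Y := by
  classical
  unfold Blocks Pool.Agent.R463.TP.BT
  congr 1
  ext n
  simp only [mem_filter, good_iff f g hg]

lemma adm1 (m : ℤ) (p : ℕ) (hp : p.Prime) :
    ∃ x : ℕ, ¬ p ∣ x ∧ ¬ (p : ℤ) ∣ ((2 * m) ^ 2) * (x : ℤ) ^ 2 + 0 * x + 1 := by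
  by_cases h2 : p = 2
  · subst h2
    refine ⟨1, by norm_num, ?_⟩
    intro h
    have e : ((2 * m) ^ 2) * ((1 : ℕ) : ℤ) ^ 2 + 0 * ((1 : ℕ) : ℤ) + 1 = 2 * (2 * m ^ 2) + 1 := by
      push_cast
      ring
    rw [e] at h
    push_cast at h
    omega
  by_cases h3 : p = 3
  · subst h3
    refine ⟨1, by norm_num, ?_⟩
    intro h
    have e : ((2 * m) ^ 2) * ((1 : ℕ) : ℤ) ^ 2 + 0 * ((1 : ℕ) : ℤ) + 1 = 3 * m ^ 2 + (m * m + 1) := by
      push_cast
      ring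
    rw [e] at h
    have h4 : (3 : ℤ) ∣ m * m + 1 := by
      have h5 := dvd_sub h (Dvd.intro (m ^ 2) rfl : (3 : ℤ) ∣ 3 * m ^ 2)
      simpa using h5
    have h6 : m % 3 = 0 ∨ m % 3 = 1 ∨ m % 3 = 2 := by omega
    have h7 : (m * m + 1) % 3 = 0 := Int.emod_eq_zero_of_dvd h4
    rcases h6 with h | h | h <;> simp [Int.add_emod, Int.mul_emod, h] at h7
  have hp5 : 5 ≤ p := by
    have := hp.two_le
    by_contra hcon
    have : p = 4 := by omega
    subst this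
    exact absurd hp (by norm_num)
  by_contra hcon
  push Not at hcon
  have g1 := hcon 1 (fun h => by have := Nat.le_of_dvd (by norm_num) h; omega)
  have g2 := hcon 2 (fun h => by have := Nat.le_of_dvd (by norm_num) h; omega)
  have h4 : (p : ℤ) ∣ 12 * m ^ 2 := by
    have h5 := dvd_sub g2 g1
    have e : ((2 * m) ^ 2) * ((2 : ℕ) : ℤ) ^ 2 + 0 * ((2 : ℕ) : ℤ) + 1 -
        (((2 * m) ^ 2) * ((1 : ℕ) : ℤ) ^ 2 + 0 * ((1 : ℕ) : ℤ) + 1) = 12 * m ^ 2 := by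
      push_cast
      ring
    rwa [e] at h5
  have hp' := Nat.prime_iff_prime_int.1 hp
  have h6 : (p : ℤ) ∣ m := by
    rcases hp'.dvd_or_dvd h4 with h | h
    · exfalso
      have h7 : p ∣ 12 := by exact_mod_cast h
      have h8 : p ∣ 4 * 3 := by simpa using h7
      rcases (Nat.Prime.dvd_mul hp).1 h8 with h9 | h9
      · have := Nat.le_of_dvd (by norm_num) h9
        omega
      · have := Nat.le_of_dvd (by norm_num) h9
        omega
    · exact hp'.dvd_of_dvd_pow h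
  have h7 : (p : ℤ) ∣ 1 := by
    have e : ((2 * m) ^ 2) * ((1 : ℕ) : ℤ) ^ 2 + 0 * ((1 : ℕ) : ℤ) + 1 = m * (4 * m) + 1 := by
      push_cast
      ring
    rw [e] at g1
    exact (dvd_add_right (h6.mul_right _)).1 g1
  have h8 : p ∣ 1 := by exact_mod_cast h7
  exact hp.one_lt.ne' (Nat.dvd_one.1 h8)

lemma adm2 (m : ℤ) (p : ℕ) (hp : p.Prime) :
    ∃ x : ℕ, ¬ p ∣ x ∧ ¬ (p : ℤ) ∣ ((2 * m + 1) ^ 2) * (x : ℤ) ^ 2 + 0 * x + 4 := by
  by_cases h2 : p = 2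
  · subst h2
    refine ⟨1, by norm_num, ?_⟩
    intro h
    have e : ((2 * m + 1) ^ 2) * ((1 : ℕ) : ℤ) ^ 2 + 0 * ((1 : ℕ) : ℤ) + 4 =
        2 * (2 * m ^ 2 + 2 * m + 2) + 1 := by
      push_cast
      ring
    rw [e] at h
    push_cast at h
    omega
  by_cases h3 : p = 3
  · subst h3
    refine ⟨1, by norm_num, ?_⟩
    intro h
    obtain ⟨w, hw⟩ : ∃ w : ℤ, w = 2 * m + 1 := ⟨_, rfl⟩
    have e : ((2 * m + 1) ^ 2) * ((1 : ℕ) : ℤ) ^ 2 + 0 * ((1 : ℕ) : ℤ) + 4 = w * w + 4 := by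
      rw [hw]
      push_cast
      ring
    rw [e] at h
    have h6 : w % 3 = 0 ∨ w % 3 = 1 ∨ w % 3 = 2 := by omega
    have h7 : (w * w + 4) % 3 = 0 := Int.emod_eq_zero_of_dvd (by exact_mod_cast h)
    rcases h6 with h | h | h <;> simp [Int.add_emod, Int.mul_emod, h] at h7
  have hp5 : 5 ≤ p := by
    have := hp.two_le
    by_contra hcon
    have : p = 4 := by omega
    subst this
    exact absurd hp (by norm_num)
  by_contra hcon
  push Not at hcon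
  have g1 := hcon 1 (fun h => by have := Nat.le_of_dvd (by norm_num) h; omega)
  have g2 := hcon 2 (fun h => by have := Nat.le_of_dvd (by norm_num) h; omega)
  have h4 : (p : ℤ) ∣ 3 * (2 * m + 1) ^ 2 := by
    have h5 := dvd_sub g2 g1
    have e : ((2 * m + 1) ^ 2) * ((2 : ℕ) : ℤ) ^ 2 + 0 * ((2 : ℕ) : ℤ) + 4 -
        (((2 * m + 1) ^ 2) * ((1 : ℕ) : ℤ) ^ 2 + 0 * ((1 : ℕ) : ℤ) + 4) = 3 * (2 * m + 1) ^ 2 := by
      push_cast
      ring
    rwa [e] at h5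
  have hp' := Nat.prime_iff_prime_int.1 hp
  have h6 : (p : ℤ) ∣ 2 * m + 1 := by
    rcases hp'.dvd_or_dvd h4 with h | h
    · exfalso
      have h7 : p ∣ 3 := by exact_mod_cast h
      have := Nat.le_of_dvd (by norm_num) h7
      omega
    · exact hp'.dvd_of_dvd_pow h
  have h7 : (p : ℤ) ∣ 4 := by
    have e : ((2 * m + 1) ^ 2) * ((1 : ℕ) : ℤ) ^ 2 + 0 * ((1 : ℕ) : ℤ) + 4 =
        (2 * m + 1) * (2 * m + 1) + 4 := by
      push_cast
      ring
    rw [e] at g1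
    exact (dvd_add_right (h6.mul_right _)).1 g1
  have h8 : p ∣ 4 := by exact_mod_cast h7
  have := Nat.le_of_dvd (by norm_num) h8
  omega

lemma neg_nsq (a c : ℤ) (ha : 0 < a) (hc : 0 < c) : ¬ IsSquare ((0 : ℤ) ^ 2 - 4 * a * c) := by
  rintro ⟨x, hx⟩
  have h1 := mul_self_nonneg x
  have h2 : 0 < a * c := mul_pos ha hc
  nlinarith

lemma fam (A N : ℕ) (hN : 3 ≤ N) (f : ℕ → ℤ) (h : Family A N f) :
    ∃ (F : Polynomial ℤ) (g : ℤ → ℤ), Pool.Agent.R490.PA.Good 2 ((N : ℤ) ^ (2 * A + 2)) F g ∧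
      ∀ n : ℕ, g n = f n := by
  obtain ⟨m, hm, hmN, h⟩ := h
  have hmz : (1 : ℤ) ≤ m := by exact_mod_cast hm
  have hNz : (3 : ℤ) ≤ N := by exact_mod_cast hN
  have hmN' : (m : ℤ) ≤ (N : ℤ) ^ A := by exact_mod_cast hmN
  have hA1 : (1 : ℤ) ≤ (N : ℤ) ^ A := one_le_pow₀ (by linarith)
  have hpow : (N : ℤ) ^ (2 * A + 2) = ((N : ℤ) ^ A) ^ 2 * ((N : ℤ) ^ 2) := by ring
  have hN9 : (9 : ℤ) ≤ (N : ℤ) ^ 2 := by nlinarith
  have h9 : 9 * ((N : ℤ) ^ A) ^ 2 ≤ (N : ℤ) ^ (2 * A + 2) := by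
    rw [hpow]
    nlinarith [sq_nonneg ((N : ℤ) ^ A)]
  have hmm : (m : ℤ) ^ 2 ≤ ((N : ℤ) ^ A) ^ 2 := by nlinarith
  have hAA : (1 : ℤ) ≤ ((N : ℤ) ^ A) ^ 2 := by nlinarith
  rcases h with rfl | rfl
  · refine ⟨Pool.Agent.TH464.PW.quad ((2 * m) ^ 2) 0 1, fun x => ((2 * m) ^ 2) * x ^ 2 + 0 * x + 1,
      { ev := fun x => by
          unfold Pool.Agent.TH464.PW.quad
          simp
        irr := Pool.Agent.TH464.PW.quad_irr _ 0 1 (by positivity) (fun p hp h => by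
          have h1 : p ∣ 1 := by exact_mod_cast h.2.2
          exact hp.one_lt.ne' (Nat.dvd_one.1 h1)) (neg_nsq _ _ (by positivity) one_pos)
        deg := by rw [Pool.Agent.TH464.PW.quad_deg _ 0 1 (by positivity)]
        degD := by rw [Pool.Agent.TH464.PW.quad_deg _ 0 1 (by positivity)]
        hgt := fun n => Pool.Agent.Y879.GL.quad_coeff _ 0 1 n _ (by
            rw [abs_of_nonneg (by positivity)]
            nlinarith) (by rw [abs_zero]; positivity) (by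
            rw [abs_one]
            nlinarith)
        adm := fun p hp => adm1 m p hp }, fun n => by
          show ((2 * (m : ℤ)) ^ 2) * (n : ℤ) ^ 2 + 0 * n + 1 = (2 * m * n : ℤ) ^ 2 + 1
          ring⟩
  · refine ⟨Pool.Agent.TH464.PW.quad ((2 * m + 1) ^ 2) 0 4, fun x => ((2 * m + 1) ^ 2) * x ^ 2 + 0 * x + 4,
      { ev := fun x => by
          unfold Pool.Agent.TH464.PW.quad
          simp
        irr := Pool.Agent.TH464.PW.quad_irr _ 0 4 (by positivity) (fun p hp h => by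
          have h1 : p ∣ 4 := by exact_mod_cast h.2.2
          have hp2 : p = 2 := by
            have h2 : p ∣ 2 ^ 2 := by simpa using h1
            exact (Nat.prime_dvd_prime_iff_eq hp Nat.prime_two).1 (hp.dvd_of_dvd_pow h2)
          subst hp2
          have h3 := h.1
          have e : ((2 * (m : ℤ) + 1) ^ 2) = 2 * (2 * m ^ 2 + 2 * m) + 1 := by ring
          rw [e] at h3
          push_cast at h3
          omega) (neg_nsq _ _ (by positivity) (by norm_num))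
        deg := by rw [Pool.Agent.TH464.PW.quad_deg _ 0 4 (by positivity)]
        degD := by rw [Pool.Agent.TH464.PW.quad_deg _ 0 4 (by positivity)]
        hgt := fun n => Pool.Agent.Y879.GL.quad_coeff _ 0 4 n _ (by
            rw [abs_of_nonneg (by positivity)]
            nlinarith) (by rw [abs_zero]; positivity) (by
            rw [abs_of_nonneg (by norm_num)]
            nlinarith)
        adm := fun p hp => adm2 m p hp }, fun n => by
          show ((2 * (m : ℤ) + 1) ^ 2) * (n : ℤ) ^ 2 + 0 * n + 4 = ((2 * m + 1) * n : ℤ) ^ 2 + 4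
          ring⟩

/-- **The exact local structure.** For every natural `A`, `K`, `θ > 0`, `x₀` and `ε > 0` there is `r₀` such
that for all `r ≥ r₀` and all large `X` the following holds uniformly for ALL functions `f` of `Family A X`
(`f x = (2 m x) ^ 2 + 1` or `f x = ((2 m + 1) x) ^ 2 + 4` with `1 ≤ m ≤ X ^ A`), for ALL intervals `(Z, Z + Y]` with `Y ≥ X ^ θ`, ALL sets `H` of at most
`K` natural numbers with `0 ∈ H` and all `L ≥ max H` with `L V ≤ x₀`: the number of the `n` in the interval for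
which the good integers in `[n, n + L]` are exactly the `n + h`, `h ∈ H`, is `Y VH exp (- L V)`, up to the
factor `1 ± ε`. -/
theorem result (A K : ℕ) (θ : ℝ) (hθ : 0 < θ) (x₀ ε : ℝ) (hε : 0 < ε) :
    ∃ r₀ : ℕ, 2 ≤ r₀ ∧ ∀ r : ℕ, r₀ ≤ r → ∀ᶠ X : ℕ in atTop, ∀ f : ℕ → ℤ, Family A X f →
      ∀ Z Y : ℕ, (X : ℝ) ^ θ ≤ Y → ∀ H : Finset ℕ, H.card ≤ K → 0 ∈ H → ∀ L : ℕ,
        (∀ h ∈ H, h ≤ L) → L * V f X r ≤ x₀ →
        |(Blocks f H L X r Z Y : ℝ) - Y * VH f H X r * Real.exp (-(L * V f X r))| ≤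
          ε * (Y * VH f H X r * Real.exp (-(L * V f X r))) := by
  obtain ⟨r₀, hr₀, h⟩ := Pool.Agent.R463.TP.blocksT 2 (2 * A + 2) K (by norm_num) θ hθ x₀ ε hε
  refine ⟨r₀, hr₀, fun r hr => ?_⟩
  filter_upwards [h r hr, eventually_ge_atTop 3] with X h1 h2 f hf Z Y hY H hH h0 L hL hx
  obtain ⟨F, g, hF, hg⟩ := fam A X h2 f hf
  rw [V_eq f g hg] at hx ⊢
  rw [Blocks_eq f g hg, VH_eq f g hg]
  exact h1 F g hF Z Y hY H hH h0 L hL hx

end Pool.Agent.Results.MP_4b1228_nt.ExactBlocks
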