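import Mathlib
import Pool.Agent.R463.TwoN

set_option autoImplicit false

/-!
# Narrow progressions in the Ankeny-Chowla-Hasse and Lang families

For fixed `m`: almost all elements of every set of primes `q` for which `(2 m q) ^ 2 + 1` (or
`((2 m + 1) q) ^ 2 + 4`) is prime, or of every set of almost primes with almost prime values, lie in narrow
arithmetic progressions inside the set.
-/

namespace Pool.Agent.Results.MP_4b1228_nt.NarrowProgressions

open Finset Filter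

/-- the functions `(2 m x) ^ 2 + 1` and `((2 m + 1) x) ^ 2 + 4` of the two families, `m ≥ 1` -/
def Family (f : ℕ → ℕ) : Prop :=
  ∃ m : ℕ, 1 ≤ m ∧ (f = (fun x : ℕ => (2 * m * x) ^ 2 + 1) ∨ f = (fun x : ℕ => ((2 * m + 1) * x) ^ 2 + 4))

/-- The `n` such that all prime factors of `n` and of `f n` are larger than `n ^ (1 / r)`. -/
def RoughAt (f : ℕ → ℕ) (r : ℕ) : Set ℕ :=
  {n | ∀ p : ℕ, p.Prime → (p ∣ n ∨ p ∣ f n) → (n : ℝ) ^ (1 / (r : ℝ)) < (p : ℝ)}

/-- `n` is a term of an `l`-term arithmetic progression with difference at most `D`, all terms of which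
are elements of `A` in the interval `(a, b]`. -/
def InProgression (A : Set ℕ) (l : ℕ) (D : ℝ) (a b n : ℕ) : Prop :=
  ∃ u d : ℕ, 1 ≤ d ∧ (d : ℝ) ≤ D ∧ (∀ i < l, u + i * d ∈ A ∧ a < u + i * d ∧ u + i * d ≤ b) ∧
    ∃ i < l, n = u + i * d

lemma Family.ge {f : ℕ → ℕ} (h : Family f) (n : ℕ) : n ≤ f n := by
  obtain ⟨m, hm, rfl | rfl⟩ := h
  · show n ≤ (2 * m * n) ^ 2 + 1
    have h1 : n ≤ 2 * m * n := by nlinarith
    nlinarith
  · show n ≤ ((2 * m + 1) * n) ^ 2 + 4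
    have h1 : n ≤ (2 * m + 1) * n := by nlinarith
    nlinarith

/-- primes with prime values are in `RoughAt` -/
lemma prime_sub {f : ℕ → ℕ} (hf : Family f) (r : ℕ) (hr : 2 ≤ r) (n : ℕ) (hn : n.Prime) (hfn : (f n).Prime) :
    n ∈ RoughAt f r := by
  intro p hp hd
  have h3 : n ≤ p := by
    rcases hd with hd | hd
    · rw [(Nat.prime_dvd_prime_iff_eq hp hn).1 hd]
    · rw [(Nat.prime_dvd_prime_iff_eq hp hfn).1 hd]
      exact hf.ge n
  have hn1 : (1 : ℝ) < n := by exact_mod_cast hn.one_lt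
  have hr2 : (2 : ℝ) ≤ r := by exact_mod_cast hr
  have h4 : (n : ℝ) ^ (1 / (r : ℝ)) < n := by
    have h5 : (1 / (r : ℝ)) < 1 := by
      rw [div_lt_one (by linarith)]
      linarith
    have := Real.rpow_lt_rpow_of_exponent_lt hn1 h5
    rwa [Real.rpow_one] at this
  exact h4.trans_le (by exact_mod_cast h3)

lemma adm1 (m : ℤ) (p : ℕ) (hp : p.Prime) :
    ∃ x : ℕ, ¬ p ∣ x ∧ ¬ (p : ℤ) ∣ ((2 * m) ^ 2) * (x : ℤ) ^ 2 + 0 * x + 1 := by
  by_cases h2 : p = 2
  · subst h2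
    refine ⟨1, by norm_num, ?_⟩
    intro h
    have e : ((2 * m) ^ 2) * ((1 : ℕ) : ℤ) ^ 2 + 0 * ((1 : ℕ) : ℤ) + 1 = 2 * (2 * m ^ 2) + 1 := by
      push_cast
      ring
    rw [e] at h
    push_cast at h
    omega
  by_cases h3 : p = 3
  · subst h3
    refine ⟨1, by norm_num, ?_⟩
    intro h
    have e : ((2 * m) ^ 2) * ((1 : ℕ) : ℤ) ^ 2 + 0 * ((1 : ℕ) : ℤ) + 1 = 3 * m ^ 2 + (m * m + 1) := by
      push_cast
      ring
    rw [e] at h
    have h4 : (3 : ℤ) ∣ m * m + 1 := by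
      have h5 := dvd_sub h (Dvd.intro (m ^ 2) rfl : (3 : ℤ) ∣ 3 * m ^ 2)
      simpa using h5
    have h6 : m % 3 = 0 ∨ m % 3 = 1 ∨ m % 3 = 2 := by omega
    have h7 : (m * m + 1) % 3 = 0 := Int.emod_eq_zero_of_dvd h4
    rcases h6 with h | h | h <;> simp [Int.add_emod, Int.mul_emod, h] at h7
  have hp5 : 5 ≤ p := by
    have := hp.two_le
    by_contra hcon
    have : p = 4 := by omega
    subst this
    exact absurd hp (by norm_num)
  by_contra hcon
  push Not at hcon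
  have g1 := hcon 1 (fun h => by have := Nat.le_of_dvd (by norm_num) h; omega)
  have g2 := hcon 2 (fun h => by have := Nat.le_of_dvd (by norm_num) h; omega)
  have h4 : (p : ℤ) ∣ 12 * m ^ 2 := by
    have h5 := dvd_sub g2 g1
    have e : ((2 * m) ^ 2) * ((2 : ℕ) : ℤ) ^ 2 + 0 * ((2 : ℕ) : ℤ) + 1 -
        (((2 * m) ^ 2) * ((1 : ℕ) : ℤ) ^ 2 + 0 * ((1 : ℕ) : ℤ) + 1) = 12 * m ^ 2 := by
      push_cast
      ring
    rwa [e] at h5
  have hp' := Nat.prime_iff_prime_int.1 hp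
  have h6 : (p : ℤ) ∣ m := by
    rcases hp'.dvd_or_dvd h4 with h | h
    · exfalso
      have h7 : p ∣ 12 := by exact_mod_cast h
      have h8 : p ∣ 4 * 3 := by simpa using h7
      rcases (Nat.Prime.dvd_mul hp).1 h8 with h9 | h9
      · have := Nat.le_of_dvd (by norm_num) h9
        omega
      · have := Nat.le_of_dvd (by norm_num) h9
        omega
    · exact hp'.dvd_of_dvd_pow h
  have h7 : (p : ℤ) ∣ 1 := by
    have e : ((2 * m) ^ 2) * ((1 : ℕ) : ℤ) ^ 2 + 0 * ((1 : ℕ) : ℤ) + 1 = m * (4 * m) + 1 := by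
      push_cast
      ring
    rw [e] at g1
    exact (dvd_add_right (h6.mul_right _)).1 g1
  have h8 : p ∣ 1 := by exact_mod_cast h7
  exact hp.one_lt.ne' (Nat.dvd_one.1 h8)

lemma adm2 (m : ℤ) (p : ℕ) (hp : p.Prime) :
    ∃ x : ℕ, ¬ p ∣ x ∧ ¬ (p : ℤ) ∣ ((2 * m + 1) ^ 2) * (x : ℤ) ^ 2 + 0 * x + 4 := by
  by_cases h2 : p = 2
  · subst h2
    refine ⟨1, by norm_num, ?_⟩
    intro h
    have e : ((2 * m + 1) ^ 2) * ((1 : ℕ) : ℤ) ^ 2 + 0 * ((1 : ℕ) : ℤ) + 4 =
        2 * (2 * m ^ 2 + 2 * m + 2) + 1 := by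
      push_cast
      ring
    rw [e] at h
    push_cast at h
    omega
  by_cases h3 : p = 3
  · subst h3
    refine ⟨1, by norm_num, ?_⟩
    intro h
    obtain ⟨w, hw⟩ : ∃ w : ℤ, w = 2 * m + 1 := ⟨_, rfl⟩
    have e : ((2 * m + 1) ^ 2) * ((1 : ℕ) : ℤ) ^ 2 + 0 * ((1 : ℕ) : ℤ) + 4 = w * w + 4 := by
      rw [hw]
      push_cast
      ring
    rw [e] at h
    have h6 : w % 3 = 0 ∨ w % 3 = 1 ∨ w % 3 = 2 := by omega
    have h7 : (w * w + 4) % 3 = 0 := Int.emod_eq_zero_of_dvd (by exact_mod_cast h)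
    rcases h6 with h | h | h <;> simp [Int.add_emod, Int.mul_emod, h] at h7
  have hp5 : 5 ≤ p := by
    have := hp.two_le
    by_contra hcon
    have : p = 4 := by omega
    subst this
    exact absurd hp (by norm_num)
  by_contra hcon
  push Not at hcon
  have g1 := hcon 1 (fun h => by have := Nat.le_of_dvd (by norm_num) h; omega)
  have g2 := hcon 2 (fun h => by have := Nat.le_of_dvd (by norm_num) h; omega)
  have h4 : (p : ℤ) ∣ 3 * (2 * m + 1) ^ 2 := by
    have h5 := dvd_sub g2 g1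
    have e : ((2 * m + 1) ^ 2) * ((2 : ℕ) : ℤ) ^ 2 + 0 * ((2 : ℕ) : ℤ) + 4 -
        (((2 * m + 1) ^ 2) * ((1 : ℕ) : ℤ) ^ 2 + 0 * ((1 : ℕ) : ℤ) + 4) = 3 * (2 * m + 1) ^ 2 := by
      push_cast
      ring
    rwa [e] at h5
  have hp' := Nat.prime_iff_prime_int.1 hp
  have h6 : (p : ℤ) ∣ 2 * m + 1 := by
    rcases hp'.dvd_or_dvd h4 with h | h
    · exfalso
      have h7 : p ∣ 3 := by exact_mod_cast h
      have := Nat.le_of_dvd (by norm_num) h7
      omega
    · exact hp'.dvd_of_dvd_pow h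
  have h7 : (p : ℤ) ∣ 4 := by
    have e : ((2 * m + 1) ^ 2) * ((1 : ℕ) : ℤ) ^ 2 + 0 * ((1 : ℕ) : ℤ) + 4 =
        (2 * m + 1) * (2 * m + 1) + 4 := by
      push_cast
      ring
    rw [e] at g1
    exact (dvd_add_right (h6.mul_right _)).1 g1
  have h8 : p ∣ 4 := by exact_mod_cast h7
  have := Nat.le_of_dvd (by norm_num) h8
  omega

lemma neg_nsq (a c : ℤ) (ha : 0 < a) (hc : 0 < c) : ¬ IsSquare ((0 : ℤ) ^ 2 - 4 * a * c) := by
  rintro ⟨x, hx⟩
  have h1 := mul_self_nonneg x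
  have h2 : 0 < a * c := mul_pos ha hc
  nlinarith


open Classical in
/-- **Narrow progressions in the two families.** Let `f x = (2 m x) ^ 2 + 1` or `f x = ((2 m + 1) x) ^ 2 + 4`
with some `m ≥ 1`. (1) For `r ≥ 2` all primes `q` for which `f q` is prime belong to `RoughAt f r`.
(2) Let `θ > 0`, `r, l ≥ 2` and `ε > 0`. There is `B` such that for all large `X`, all `X ^ θ ≤ Y ≤ X` and EVERY
set `A` of integers `n` such that neither `n` nor `f n` has a prime factor `≤ n ^ (1 / r)`, for instance every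
set of primes `q` with `f q` prime: all but at most `ε Y / (log X) ^ 2` of the elements of `A` in `(X, X + Y]`
are terms of `l`-term arithmetic progressions, contained in the part of `A` in `(X, X + Y]`, with difference at
most `(log X) ^ B`. -/
theorem result (f : ℕ → ℕ) (hf : Family f) :
    (∀ r : ℕ, 2 ≤ r → ∀ q : ℕ, q.Prime → (f q).Prime → q ∈ RoughAt f r) ∧
    ∀ θ : ℝ, 0 < θ → ∀ r : ℕ, 2 ≤ r → ∀ l : ℕ, 2 ≤ l → ∀ ε : ℝ, 0 < ε →
    ∃ B : ℕ, ∀ᶠ X : ℕ in atTop, ∀ Y : ℕ, (X : ℝ) ^ θ ≤ Y → Y ≤ X →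
      ∀ A : Set ℕ, A ⊆ RoughAt f r →
        (((Ioc X (X + Y)).filter (fun n : ℕ =>
          n ∈ A ∧ ¬ InProgression A l (Real.log X ^ B) X (X + Y) n)).card : ℝ) ≤
        ε * (Y / Real.log X ^ 2) := by
  refine ⟨fun r hr q hq hfq => prime_sub hf r hr q hq hfq, ?_⟩
  intro θ hθ r hr l hl ε hε
  have key : ∃ (F : Polynomial ℤ) (g : ℤ → ℤ), (∀ x, F.eval x = g x) ∧ Irreducible F ∧ 2 ≤ F.natDegree ∧
      0 < F.leadingCoeff ∧ (∀ p : ℕ, p.Prime → ∃ x : ℕ, ¬ p ∣ x ∧ ¬ (p : ℤ) ∣ g (x : ℤ)) ∧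
      ∀ n : ℕ, g n = ((f n : ℕ) : ℤ) := by
    obtain ⟨m, hm, rfl | rfl⟩ := hf
    · refine ⟨Pool.Agent.TH464.PW.quad ((2 * m) ^ 2) 0 1, fun x => ((2 * m) ^ 2) * x ^ 2 + 0 * x + 1,
        fun x => by
          unfold Pool.Agent.TH464.PW.quad
          simp, Pool.Agent.TH464.PW.quad_irr _ 0 1 (by positivity) (fun p hp h => by
          have h1 : p ∣ 1 := by exact_mod_cast h.2.2
          exact hp.one_lt.ne' (Nat.dvd_one.1 h1)) (neg_nsq _ _ (by positivity) one_pos),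
        by rw [Pool.Agent.TH464.PW.quad_deg _ 0 1 (by positivity)],
        by rw [Pool.Agent.TH464.PW.quad_lead _ 0 1 (by positivity)]; positivity,
        fun p hp => adm1 m p hp, fun n => by
          push_cast
          ring⟩
    · refine ⟨Pool.Agent.TH464.PW.quad ((2 * m + 1) ^ 2) 0 4, fun x => ((2 * m + 1) ^ 2) * x ^ 2 + 0 * x + 4,
        fun x => by
          unfold Pool.Agent.TH464.PW.quad
          simp, Pool.Agent.TH464.PW.quad_irr _ 0 4 (by positivity) (fun p hp h => by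
          have h1 : p ∣ 4 := by exact_mod_cast h.2.2
          have hp2 : p = 2 := by
            have h2 : p ∣ 2 ^ 2 := by simpa using h1
            exact (Nat.prime_dvd_prime_iff_eq hp Nat.prime_two).1 (hp.dvd_of_dvd_pow h2)
          subst hp2
          have h3 := h.1
          have e : ((2 * (m : ℤ) + 1) ^ 2) = 2 * (2 * m ^ 2 + 2 * m) + 1 := by ring
          rw [e] at h3
          push_cast at h3
          omega) (neg_nsq _ _ (by positivity) (by norm_num)),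
        by rw [Pool.Agent.TH464.PW.quad_deg _ 0 4 (by positivity)],
        by rw [Pool.Agent.TH464.PW.quad_lead _ 0 4 (by positivity)]; positivity,
        fun p hp => adm2 m p hp, fun n => by
          push_cast
          ring⟩
  obtain ⟨F, g, h1, h2, h3, h4, h5, h6⟩ := key
  obtain ⟨B, hB⟩ := Pool.Agent.R463.TN.narrowT F g h1 h2 h3 h4 h5 θ hθ r hr l hl ε hε
  refine ⟨B, ?_⟩
  filter_upwards [hB] with X hX Y hXY hYX A hA
  refine hX Y hXY hYX A (fun n hn p hp hd => hA hn p hp ?_)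
  rcases hd with hd | hd
  · exact Or.inl hd
  · right
    rw [h6] at hd
    exact_mod_cast hd

end Pool.Agent.Results.MP_4b1228_nt.NarrowProgressions
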